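import Pool.Agent.Lib.MP_5349a4_pr.M.Iface4

set_option autoImplicit false
open MeasureTheory Set
open scoped ENNReal NNReal

namespace Pool.Agent.Lib.MP_5349a4_pr.H80

/-- Two forest neighbours of a point are seen under an angle of at least 60 degrees. -/
lemma angle {d : ℕ} {S : Set (Eu d)} {x y y' : Eu d} (hG : Gen S) (h : edge S x y)
    (h' : edge S x y') (hne : y ≠ y') :
    1 ≤ dist ((dist x y)⁻¹ • (y - x)) ((dist x y')⁻¹ • (y' - x)) := by
  wlog hle : dist x y' ≤ dist x y generalizing y y' with H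
  · rw [dist_comm]
    exact H h' h hne.symm (le_of_lt (not_le.1 hle))
  obtain ⟨hx, hy, hxy, ho⟩ := h
  obtain ⟨_, hy', hxy', _⟩ := h'
  have hlt : dist x y' < dist x y := by
    refine lt_of_le_of_ne hle (fun heq => ?_)
    rcases hG x hx y' hy' x hx y hy hxy' hxy heq with h1 | h1
    · exact hne h1.2.symm
    · exact hxy h1.1
  have hd : dist x y ≤ dist y' y := by
    by_contra hcon
    push Not at hcon
    refine ho ?_
    refine Relation.ReflTransGen.tail (Relation.ReflTransGen.single ?_) ⟨hcon, hy⟩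
    exact ⟨hlt, hy'⟩
  set a := dist x y with ha
  set b := dist x y' with hb
  have hb0 : 0 < b := dist_pos.2 hxy'
  have ha0 : 0 < a := dist_pos.2 hxy
  set u := y - x with hu
  set v := y' - x with hv
  have hun : ‖u‖ = a := by rw [hu, ha, dist_comm, dist_eq_norm]
  have hvn : ‖v‖ = b := by rw [hv, hb, dist_comm, dist_eq_norm]
  have huv : a ≤ ‖u - v‖ := by
    have : u - v = y - y' := by rw [hu, hv]; abel
    rw [this, ← dist_eq_norm, dist_comm]
    exact hd
  have h1 : ‖u - v‖ ^ 2 = a ^ 2 - 2 * inner ℝ u v + b ^ 2 := by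
    rw [norm_sub_sq_real, hun, hvn]
  have h2 : 2 * inner ℝ u v ≤ b ^ 2 := by
    have h3 : a ^ 2 ≤ ‖u - v‖ ^ 2 := pow_le_pow_left₀ ha0.le huv 2
    linarith
  have h4 : ‖a⁻¹ • u - b⁻¹ • v‖ ^ 2 = 2 - 2 * (a⁻¹ * b⁻¹ * inner ℝ u v) := by
    rw [norm_sub_sq_real, norm_smul, norm_smul, hun, hvn, real_inner_smul_left,
      real_inner_smul_right, Real.norm_eq_abs, Real.norm_eq_abs, abs_of_pos (inv_pos.2 ha0),
      abs_of_pos (inv_pos.2 hb0), inv_mul_cancel₀ ha0.ne', inv_mul_cancel₀ hb0.ne']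
    ring
  have h5 : 2 * (a⁻¹ * b⁻¹ * inner ℝ u v) ≤ 1 := by
    have h6 : a⁻¹ * b⁻¹ * (2 * inner ℝ u v) ≤ a⁻¹ * b⁻¹ * b ^ 2 :=
      mul_le_mul_of_nonneg_left h2 (by positivity)
    have h7 : a⁻¹ * b⁻¹ * b ^ 2 = b / a := by field_simp
    have h8 : b / a ≤ 1 := (div_le_one ha0).2 hlt.le
    linarith
  rw [dist_eq_norm]
  have h9 : 1 ≤ ‖a⁻¹ • u - b⁻¹ • v‖ ^ 2 := by rw [h4]; linarith
  nlinarith [norm_nonneg (a⁻¹ • u - b⁻¹ • v)]

theorem deg : DegStatement := by
  intro d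
  obtain ⟨t, -, htf, htc⟩ := (isCompact_closedBall (0 : Eu d) 1).finite_cover_balls
    (e := 1 / 2) (by norm_num)
  refine ⟨htf.toFinset.card, fun S x hG => ?_⟩
  have hex : ∀ y : {y | edge S x y}, ∃ c ∈ t,
      dist ((dist x (y : Eu d))⁻¹ • ((y : Eu d) - x)) c < 1 / 2 := by
    rintro ⟨y, hy⟩
    have h1 : (dist x y)⁻¹ • (y - x) ∈ Metric.closedBall (0 : Eu d) 1 := by
      rw [mem_closedBall_zero_iff, norm_smul, norm_inv, Real.norm_eq_abs, abs_of_nonneg dist_nonneg,
        dist_comm, dist_eq_norm]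
      have h0 : ‖y - x‖ ≠ 0 := norm_ne_zero_iff.2 (sub_ne_zero.2 hy.2.2.1.symm)
      rw [inv_mul_cancel₀ h0]
    have h2 := htc h1
    simp only [mem_iUnion, Metric.mem_ball, exists_prop] at h2
    exact h2
  choose f hf1 hf2 using hex
  have hinj : Function.Injective f := by
    rintro ⟨y, hy⟩ ⟨y', hy'⟩ heq
    by_contra hne
    have hne' : y ≠ y' := fun h => hne (Subtype.ext h)
    have h1 := hf2 ⟨y, hy⟩
    have h2 := hf2 ⟨y', hy'⟩
    rw [← heq] at h2
    have h3 := angle hG hy hy' hne'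
    have h4 := dist_triangle_right ((dist x y)⁻¹ • (y - x)) ((dist x y')⁻¹ • (y' - x))
      (f ⟨y, hy⟩)
    simp only at h1 h2
    linarith
  calc {y | edge S x y}.encard ≤ t.encard := by
        have hmap : MapsTo (fun y : {y | edge S x y} => f y) univ t := fun y _ => hf1 y
        have h1 := encard_le_encard_of_injOn hmap hinj.injOn
        rwa [encard_univ, ENat.card_coe_set_eq] at h1
    _ = htf.toFinset.card := by
        rw [htf.encard_eq_coe_toFinset_card]

end Pool.Agent.Lib.MP_5349a4_pr.H80
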