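import Pool.Agent.Lib.MP_5349a4_pr.M.Iface3

set_option autoImplicit false
open MeasureTheory Set
open scoped ENNReal NNReal

namespace Pool.Agent.Lib.MP_5349a4_pr.H80

lemma ind_true' {p : Prop} (h : p) : ind p = 1 := by simp [ind, h]

lemma ind_le_one' (p : Prop) : ind p ≤ 1 := by
  unfold ind; split_ifs <;> simp

/-- the deterministic claim -/
lemma find_v {d : ℕ} {r : ℝ} (hr : 0 ≤ r) {N G W : Set (Eu d)} {x p : Eu d} (hp : p ∈ G)
    (h : Relation.ReflTransGen (step (ad r) (N ∪ G)) x p) :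
    x ∉ nbd r (LLs r N G W) → ∃ v ∈ (N ∪ G) ∩ W, (v ∈ nbd r (LLs r N G W) ∨ v ∈ G) ∧
      Con (ad r) ((N \ nbd r (LLs r N G W)) \ {v}) v x := by
  set L := LLs r N G W with hL
  have hadr : ∀ v : Eu d, ad r v v := fun v => by simpa [ad] using hr
  have hGL : ∀ v ∈ G, v ∉ W → v ∈ L := by
    intro v hv hvW
    exact ⟨⟨Or.inr hv, hvW⟩, v, ⟨hv, hvW⟩, Relation.ReflTransGen.refl⟩
  have hNL : ∀ v ∈ N ∪ G, v ∉ W → v ∈ nbd r L → v ∈ L := by
    rintro v hv hvW ⟨u, hu, hvu⟩
    obtain ⟨huN, q, hq, hqu⟩ := hu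
    refine ⟨⟨hv, hvW⟩, q, hq, ?_⟩
    exact Relation.ReflTransGen.head ⟨hvu, huN⟩ hqu
  have hself : ∀ v ∈ L, v ∈ nbd r L := fun v hv => ⟨v, hv, hadr v⟩
  induction h using Relation.ReflTransGen.head_induction_on with
  | refl =>
    intro hx
    have hpW : p ∈ W := by
      by_contra hcon
      exact hx (hself _ (hGL p hp hcon))
    exact ⟨p, ⟨Or.inr hp, hpW⟩, Or.inr hp, p, Relation.ReflTransGen.refl, hadr p⟩
  | head hstep hrest ih =>
    rename_i a a'
    intro ha
    obtain ⟨hadj, hmem⟩ := hstep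
    have hadj' : ad r a' a := by
      have : dist a a' ≤ r := hadj
      rw [dist_comm] at this
      exact this
    by_cases hcase : a' ∈ nbd r L ∨ a' ∈ G
    · have haW : a' ∈ W := by
        by_contra hcon
        have haL : a' ∈ L := by
          rcases hcase with h1 | h1
          · exact hNL a' hmem hcon h1
          · exact hGL a' h1 hcon
        exact ha ⟨a', haL, hadj⟩
      exact ⟨a', ⟨hmem, haW⟩, hcase, a', Relation.ReflTransGen.refl, hadj'⟩
    · push Not at hcase
      obtain ⟨v, hv, hvc, b, hb, hba⟩ := ih hcase.1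
      refine ⟨v, hv, hvc, a', ?_, hadj'⟩
      refine Relation.ReflTransGen.tail hb ⟨hba, ⟨?_, hcase.1⟩, ?_⟩
      · rcases hmem with h1 | h1
        · exact h1
        · exact absurd h1 hcase.2
      · intro heq
        have heq' : a' = v := heq
        rcases hvc with h1 | h1
        · exact hcase.1 (heq' ▸ h1)
        · exact hcase.2 (heq' ▸ h1)

theorem statd : StatDStatement := by
  classical
  intro d r N G W R hr _ _
  have hsum : Zbc r N G W R = ∑ x ∈ R, ∑' v : ((N ∪ G) ∩ W : Set (Eu d)),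
      ind ((v : Eu d) ∈ nbd r (LLs r N G W) ∨ (v : Eu d) ∈ G) *
        ind (Con (ad r) ((N \ nbd r (LLs r N G W)) \ {(v : Eu d)}) v x) := by
    unfold Zbc num
    rw [← Summable.tsum_finsetSum (fun _ _ => ENNReal.summable)]
    refine tsum_congr (fun v => ?_)
    rw [Finset.mul_sum]
  rw [hsum]
  unfold num
  rw [← Finset.sum_add_distrib]
  refine Finset.sum_le_sum (fun x _ => ?_)
  by_cases hg : gco r N G x
  · by_cases hx : x ∈ nbd r (LLs r N G W)
    · rw [ind_true' hx]
      exact (ind_le_one' _).trans le_self_add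
    · obtain ⟨p, hp, hpx⟩ := hg
      obtain ⟨v, hv, hvc, hcon⟩ := find_v (W := W) hr hp hpx hx
      have h1 : (1 : ℝ≥0∞) ≤ ∑' v : ((N ∪ G) ∩ W : Set (Eu d)),
          ind ((v : Eu d) ∈ nbd r (LLs r N G W) ∨ (v : Eu d) ∈ G) *
            ind (Con (ad r) ((N \ nbd r (LLs r N G W)) \ {(v : Eu d)}) v x) := by
        refine le_trans (le_of_eq ?_) (ENNReal.le_tsum ⟨v, hv⟩)
        rw [ind_true' hvc, ind_true' hcon, one_mul]
      exact (ind_le_one' _).trans (h1.trans le_add_self)
  · have : ind (gco r N G x) = 0 := by simp [ind, hg]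
    rw [this]
    exact bot_le

end Pool.Agent.Lib.MP_5349a4_pr.H80
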