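import Pool.Agent.Lib.MP_5349a4_pr.M.Iface3
import Pool.Agent.Lib.MP_5349a4_pr.M.Base
import Pool.Agent.Lib.MP_5349a4_pr.M.H48.Conm

set_option autoImplicit false
open MeasureTheory Set
open scoped ENNReal NNReal

namespace Pool.Agent.Lib.MP_5349a4_pr.H80

/-- lift2 is realised by a measurable map on tuples. -/
lemma exists_lift (hops : MOpsStatement) (d : ℕ) :
    ∃ l : Cfg (Eu d) × Cfg (Eu d) → Cfg (Eu d × Bool), Measurable l ∧
      ∀ ω ω', pt (l (ω, ω')) = lift2 (pt ω) (pt ω') := by
  obtain ⟨h1, -, h3⟩ := hops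
  obtain ⟨a, ha, hap⟩ := h1 (Eu d × Bool)
  have e0 : Measurable (fun x : Eu d => (x, false)) := measurable_id.prodMk measurable_const
  have e1 : Measurable (fun x : Eu d => (x, true)) := measurable_id.prodMk measurable_const
  obtain ⟨m0, hm0, hm0p⟩ := h3 (Eu d) (Eu d × Bool) _ e0
  obtain ⟨m1, hm1, hm1p⟩ := h3 (Eu d) (Eu d × Bool) _ e1
  refine ⟨fun q => a (m0 q.1, m1 q.2), ha.comp ((hm0.comp measurable_fst).prodMk
    (hm1.comp measurable_snd)), fun ω ω' => ?_⟩
  rw [hap, hm0p, hm1p]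
  rfl

/-- **TYP.** -/
theorem typ (hops : MOpsStatement) (hsup : SuperStatement) (himg : ImgStatement) :
    TypStatement := by
  intro d ρn ρg _ _ f hf
  have hops' := hops
  obtain ⟨h1, -, h3⟩ := hops
  obtain ⟨a, ha, hap⟩ := h1 (Eu d × Bool)
  have e0 : Measurable (fun x : Eu d => (x, false)) := measurable_id.prodMk measurable_const
  have e1 : Measurable (fun x : Eu d => (x, true)) := measurable_id.prodMk measurable_const
  obtain ⟨m1, hm1, hm1p⟩ := h3 (Eu d) (Eu d × Bool) _ e1
  have hfin0 : IsFiniteMeasure (ρn.map (fun x : Eu d => (x, false))) := inferInstance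
  have hfin1 : IsFiniteMeasure (ρg.map (fun x : Eu d => (x, true))) := inferInstance
  have hsg : SFinite (PL ρg) := H48.sFinite_PL ρg
  rw [hsup (Eu d × Bool) _ _ f hf]
  have hin : ∀ ω : Cfg (Eu d × Bool), ∫⁻ ω', f (pt ω ∪ pt ω') ∂PL (ρg.map (fun x => (x, true)))
      = ∫⁻ ω', f (pt ω ∪ (fun x => (x, true)) '' pt ω') ∂PL ρg := by
    intro ω
    refine himg (Eu d) (Eu d × Bool) ρg _ (fun P => f (pt ω ∪ P)) e1 ?_
    have : (fun ω' => f (pt ω ∪ pt ω')) = fun ω' => f (pt (a (ω, ω'))) := by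
      funext ω'; rw [hap]
    show Measurable fun ω' => f (pt ω ∪ pt ω')
    rw [this]
    exact (show Measurable fun ω => f (pt ω) from hf).comp
      (ha.comp (measurable_const.prodMk measurable_id))
  simp only [hin]
  refine himg (Eu d) (Eu d × Bool) ρn _ (fun P => ∫⁻ ω', f (P ∪ (fun x => (x, true)) '' pt ω')
    ∂PL ρg) e0 ?_
  show Measurable fun ω : Cfg (Eu d × Bool) => ∫⁻ ω', f (pt ω ∪ (fun x => (x, true)) '' pt ω')
    ∂PL ρg
  have h4 : Measurable (fun q : Cfg (Eu d × Bool) × Cfg (Eu d) =>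
      f (pt q.1 ∪ (fun x => (x, true)) '' pt q.2)) := by
    have : (fun q : Cfg (Eu d × Bool) × Cfg (Eu d) =>
        f (pt q.1 ∪ (fun x => (x, true)) '' pt q.2)) = fun q => f (pt (a (q.1, m1 q.2))) := by
      funext q; rw [hap, hm1p]
    rw [this]
    exact (show Measurable fun ω => f (pt ω) from hf).comp
      (ha.comp (measurable_fst.prodMk (hm1.comp measurable_snd)))
  exact h4.lintegral_prod_right'

section graph
variable {d : ℕ} {r : ℝ}

/-- typed adjacency -/
def tad (r : ℝ) (a b : Eu d × Bool) : Prop := ad r a.1 b.1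

lemma madj_tad : MAdj (tad r : Eu d × Bool → Eu d × Bool → Prop) := by
  unfold MAdj tad ad
  exact measurableSet_le ((measurable_fst.comp measurable_fst).dist
    (measurable_fst.comp measurable_snd)) measurable_const

lemma mem_lift2_union {N G : Set (Eu d)} {a : Eu d × Bool} (h : a ∈ lift2 N G) : a.1 ∈ N ∪ G := by
  rcases h with ⟨x, hx, rfl⟩ | ⟨x, hx, rfl⟩
  · exact Or.inl hx
  · exact Or.inr hx

lemma cl_down {N G : Set (Eu d)} {a p : Eu d × Bool} (h : p ∈ cl (tad r) (lift2 N G) a) :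
    p.1 ∈ cl (ad r) (N ∪ G) a.1 := by
  induction h with
  | refl => exact Relation.ReflTransGen.refl
  | tail _ hs ih => exact Relation.ReflTransGen.tail ih ⟨hs.1, mem_lift2_union hs.2⟩

lemma cl_up {N G : Set (Eu d)} {x p : Eu d} (c : Bool) (h : p ∈ cl (ad r) (N ∪ G) x) :
    ∃ c', (p, c') ∈ cl (tad r) (lift2 N G) (x, c) := by
  induction h with
  | refl => exact ⟨c, Relation.ReflTransGen.refl⟩
  | tail _ hs ih =>
    obtain ⟨c', hc'⟩ := ih
    rcases hs.2 with h1 | h1
    · exact ⟨false, Relation.ReflTransGen.tail hc' ⟨hs.1, Or.inl ⟨_, h1, rfl⟩⟩⟩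
    · exact ⟨true, Relation.ReflTransGen.tail hc' ⟨hs.1, Or.inr ⟨_, h1, rfl⟩⟩⟩

lemma hs_con {N G : Set (Eu d)} (a : Eu d × Bool) (y : Eu d) :
    Hs (tad r) (fun b => ad r b.1 y) (lift2 N G) a ↔ Con (ad r) (N ∪ G) a.1 y := by
  constructor
  · rintro ⟨p, hp, hpy⟩
    exact ⟨p.1, cl_down hp, hpy⟩
  · rintro ⟨p, hp, hpy⟩
    obtain ⟨c', hc'⟩ := cl_up a.2 hp
    exact ⟨(p, c'), hc', hpy⟩

lemma hs_gco (hr : 0 ≤ r) {N G : Set (Eu d)} (x : Eu d) :
    Hs (tad r) (fun b => b.2 = true) (lift2 N G) (x, false) ↔ gco r N G x := by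
  constructor
  · rintro ⟨p, hp, hpt⟩
    refine ⟨p.1, ?_, cl_down hp⟩
    rcases Relation.ReflTransGen.cases_tail hp with h | ⟨b, _, hb⟩
    · rw [h] at hpt
      exact absurd hpt (by simp)
    · rcases hb.2 with ⟨z, _, rfl⟩ | ⟨z, hz, rfl⟩
      · exact absurd hpt (by simp)
      · exact hz
  · rintro ⟨p, hp, hpx⟩
    obtain ⟨c', hc'⟩ := cl_up false hpx
    refine ⟨(p, true), ?_, rfl⟩
    refine Relation.ReflTransGen.tail hc' ⟨?_, Or.inr ⟨p, hp, rfl⟩⟩
    show dist p p ≤ r
    rw [dist_self]; exact hr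

end graph

section meas
variable {d : ℕ} {ρn ρg : Measure (Eu d)} [IsFiniteMeasure ρn] [IsFiniteMeasure ρg]

/-- the typed intensity -/
noncomputable def tρ (ρn ρg : Measure (Eu d)) : Measure (Eu d × Bool) :=
  ρn.map (fun x => (x, false)) + ρg.map (fun x => (x, true))

instance : IsFiniteMeasure (tρ ρn ρg) := by
  unfold tρ
  infer_instance

omit [IsFiniteMeasure ρn] [IsFiniteMeasure ρg] in
lemma null_tρ [NullSingletonClass ρn] [NullSingletonClass ρg] : NullSingletonClass (tρ ρn ρg) := by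
  constructor
  rintro ⟨y, b⟩
  have e0 : Measurable (fun x : Eu d => (x, false)) := measurable_id.prodMk measurable_const
  have e1 : Measurable (fun x : Eu d => (x, true)) := measurable_id.prodMk measurable_const
  unfold tρ
  rw [Measure.add_apply, Measure.map_apply e0 (measurableSet_singleton _),
    Measure.map_apply e1 (measurableSet_singleton _)]
  have h0 : ρn ((fun x : Eu d => (x, false)) ⁻¹' {(y, b)}) = 0 := by
    refine measure_mono_null (t := {y}) ?_ (measure_singleton y)
    intro x hx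
    simp only [mem_preimage, mem_singleton_iff, Prod.mk.injEq] at hx
    exact hx.1
  have h1 : ρg ((fun x : Eu d => (x, true)) ⁻¹' {(y, b)}) = 0 := by
    refine measure_mono_null (t := {y}) ?_ (measure_singleton y)
    intro x hx
    simp only [mem_preimage, mem_singleton_iff, Prod.mk.injEq] at hx
    exact hx.1
  rw [h0, h1, add_zero]

/-- transfer of probabilities -/
lemma prob_typed (hops : MOpsStatement) (htyp : TypStatement) (A : Set (Eu d × Bool) → Prop)
    (hA : MeasurableSet {ω : Cfg (Eu d × Bool) | A (pt ω)}) :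
    PL (tρ ρn ρg) {ω | A (pt ω)}
      = ((PL ρn).prod (PL ρg)) {q | A (lift2 (pt q.1) (pt q.2))} := by
  obtain ⟨l, hl, hlp⟩ := exists_lift hops d
  have hsg : SFinite (PL ρg) := H48.sFinite_PL ρg
  have hsn : SFinite (PL ρn) := H48.sFinite_PL ρn
  have hset : {q : Cfg (Eu d) × Cfg (Eu d) | A (lift2 (pt q.1) (pt q.2))} = l ⁻¹' {ω | A (pt ω)} := by
    ext q
    simp only [mem_ofPred_eq, mem_preimage]
    rw [show l q = l (q.1, q.2) from rfl, hlp]
  have hm : MeasurableSet {q : Cfg (Eu d) × Cfg (Eu d) | A (lift2 (pt q.1) (pt q.2))} := by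
    rw [hset]; exact hl hA
  rw [← lintegral_ind hA, ← lintegral_ind hm]
  have h1 := htyp d ρn ρg (fun P => ind (A P)) (measurable_ind hA)
  have h2 : ∫⁻ ω, ind (A (pt ω)) ∂PL (tρ ρn ρg)
      = ∫⁻ ωn, ∫⁻ ωg, ind (A (lift2 (pt ωn) (pt ωg))) ∂PL ρg ∂PL ρn := h1
  rw [h2, lintegral_prod _ (measurable_ind hm).aemeasurable]

end meas

/-- **TYPG.** -/
theorem typg (hops : MOpsStatement) (htyp : TypStatement) (hsup : SuperStatement)
    (htg : TgStatement) (hcon : ConMStatement) (hprob : ProbStatement) : TypGStatement := by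
  intro d ρn ρg _ _ _ _ r x x'
  by_cases hr : r < 0
  · have h0 : {q : Cfg (Eu d) × Cfg (Eu d) | Con (ad r) (pt q.1 ∪ pt q.2) x x' ∧
        gco r (pt q.1) (pt q.2) x} = ∅ := by
      ext q
      simp only [mem_ofPred_eq, mem_empty_iff_false, iff_false]
      rintro ⟨⟨a, _, ha⟩, _⟩
      have : dist a x' ≤ r := ha
      linarith [dist_nonneg (x := a) (y := x')]
    rw [h0, measure_empty]
    exact bot_le
  push Not at hr
  have hnull : NullSingletonClass (tρ ρn ρg) := null_tρ
  have hmad : MAdj (tad r : Eu d × Bool → Eu d × Bool → Prop) := madj_tad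
  -- measurability of the events
  have hms : ∀ y : Eu d, MeasurableSet {a : Eu d × Bool | ad r a.1 y} := by
    intro y
    exact measurableSet_le (measurable_fst.dist measurable_const) measurable_const
  have hmt : MeasurableSet {a : Eu d × Bool | a.2 = true} :=
    measurable_snd (measurableSet_singleton true)
  have hHs : ∀ (s : Eu d × Bool → Prop), MeasurableSet {a | s a} → ∀ a : Eu d × Bool,
      MeasurableSet {ω : Cfg (Eu d × Bool) | Hs (tad r) s (pt ω) a} := by
    intro s hs a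
    have h1 := (hcon (Eu d × Bool) (tad r) hmad).2.1 (fun _ => s) (measurable_snd hs)
    exact (measurable_const.prodMk (measurable_const.prodMk measurable_id) :
      Measurable fun ω : Cfg (Eu d × Bool) => ((a, a, ω) : (Eu d × Bool) × (Eu d × Bool)
        × Cfg (Eu d × Bool))) h1
  have hCon : ∀ y z : Eu d, MeasurableSet {ω : Cfg (Eu d) | Con (ad r) (pt ω) y z} := by
    intro y z
    have h1 := (hcon (Eu d) (ad r) (madj_ad r)).1
    exact (measurable_const.prodMk (measurable_const.prodMk measurable_id) :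
      Measurable fun ω : Cfg (Eu d) => ((y, z, ω) : Eu d × Eu d × Cfg (Eu d))) h1
  -- identification of the probabilities
  have hsg : SFinite (PL ρg) := H48.sFinite_PL ρg
  have hsn : SFinite (PL ρn) := H48.sFinite_PL ρn
  obtain ⟨au, hau, haup⟩ := hops.1 (Eu d)
  have hps : ∀ (a : Eu d × Bool) (y : Eu d),
      hp (tad r) (tρ ρn ρg) (fun b => ad r b.1 y) a = tp (ad r) (ρn + ρg) a.1 y := by
    intro a y
    unfold hp tp
    rw [prob_typed hops htyp (fun P => Hs (tad r) (fun b => ad r b.1 y) P a) (hHs _ (hms y) a)]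
    simp only [hs_con]
    have hm2 : MeasurableSet {q : Cfg (Eu d) × Cfg (Eu d) | Con (ad r) (pt q.1 ∪ pt q.2) a.1 y} := by
      have : {q : Cfg (Eu d) × Cfg (Eu d) | Con (ad r) (pt q.1 ∪ pt q.2) a.1 y}
          = au ⁻¹' {ω | Con (ad r) (pt ω) a.1 y} := by
        ext q
        simp only [mem_ofPred_eq, mem_preimage]
        rw [show au q = au (q.1, q.2) from rfl, haup]
      rw [this]; exact hau (hCon _ _)
    rw [← lintegral_ind (hCon a.1 y), ← lintegral_ind hm2,
      lintegral_prod _ (measurable_ind hm2).aemeasurable]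
    exact (hsup (Eu d) ρn ρg (fun P => ind (Con (ad r) P a.1 y)) (measurable_ind (hCon _ _))).symm
  have hpt : ∀ y : Eu d, hp (tad r) (tρ ρn ρg) (fun b => b.2 = true) (y, false)
      = gp r ρn ρg y := by
    intro y
    unfold hp gp
    rw [prob_typed hops htyp (fun P => Hs (tad r) (fun b => b.2 = true) P (y, false))
      (hHs _ hmt _)]
    simp only [hs_gco hr]
  have hpone : ∀ a : Eu d × Bool, hp (tad r) (tρ ρn ρg) (fun b => b.2 = true) a ≤ 1 := by
    intro a
    have := (hprob (Eu d × Bool) (tρ ρn ρg)).1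
    exact prob_le_one
  have htp : ∀ a b : Eu d × Bool, tp (tad r) (tρ ρn ρg) a b = tp (ad r) (ρn + ρg) a.1 b.1 :=
    fun a b => hps a b.1
  -- the tree-graph inequality
  have key := htg (Eu d × Bool) (tρ ρn ρg) (tad r) (fun b => ad r b.1 x') (fun b => b.2 = true)
    (x, false) hmad (hms x') hmt
  rw [prob_typed hops htyp (fun P => Hs (tad r) (fun b => ad r b.1 x') P (x, false) ∧
    Hs (tad r) (fun b => b.2 = true) P (x, false)) ((hHs _ (hms x') _).inter (hHs _ hmt _))] at key
  simp only [hs_con, hs_gco hr] at key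
  refine key.trans ?_
  rw [hps, hpt, add_assoc]
  refine add_le_add le_rfl ?_
  unfold tρ
  rw [lintegral_add_measure]
  refine add_le_add ?_ ?_
  · refine (lintegral_map_le _ _).trans (lintegral_mono (fun b => ?_))
    have h1 := htp (x, false) (b, false)
    have h2 := hps (b, false) x'
    have h3 := hpt b
    unfold tρ at h1 h2 h3
    rw [h1, h2, h3]
  · refine (lintegral_map_le _ _).trans (lintegral_mono (fun b => ?_))
    have h1 := htp (x, false) (b, true)
    have h2 := hps (b, true) x'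
    have h3 := hpone (b, true)
    unfold tρ at h1 h2 h3
    rw [h1, h2]
    calc _ ≤ tp (ad r) (ρn + ρg) x b * (tp (ad r) (ρn + ρg) b x' * 1) := by gcongr
      _ = _ := by rw [mul_one]

end Pool.Agent.Lib.MP_5349a4_pr.H80
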